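import Pool.Agent.Lib_helper68.TKS.CL
import Pool.Agent.Lib_helper68.LEV.TOG

/-! # T12: the lower tail of the sum over primes, natural weights -/

namespace Pool.Agent.TKS

open Pool.Agent.LEV
open MeasureTheory Filter Topology ProbabilityTheory
open scoped ENNReal

theorem gauss_neg (V : ℝ) : (gaussianReal 0 1).real (Set.Ici (-V)) =
    1 - (gaussianReal 0 1).real (Set.Ici V) := by
  have : NullSingletonClass (gaussianReal 0 1) := nullSingletonClass_gaussianReal (by norm_num)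
  have h1 : (gaussianReal 0 1).real (Set.Ici (-V)) = (gaussianReal 0 1).real (Set.Iic V) := by
    have h2 : (gaussianReal 0 1).map (fun x => -x) = gaussianReal 0 1 := by
      rw [gaussianReal_map_neg, neg_zero]
    conv_lhs => rw [← h2]
    rw [map_measureReal_apply measurable_neg measurableSet_Ici]
    congr 1
    ext x
    simp
  have h3 : (gaussianReal 0 1).real (Set.Iic V) + (gaussianReal 0 1).real (Set.Iic V)ᶜ = 1 :=
    probReal_add_probReal_compl measurableSet_Iic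
  have h4 : (gaussianReal 0 1).real (Set.Iic V)ᶜ = (gaussianReal 0 1).real (Set.Ici V) := by
    rw [Set.compl_Iic, measureReal_def, measureReal_def, Ioi_ae_eq_Ici.measure_eq]
  rw [h4] at h3
  rw [h1]
  linarith

theorem low_tail (V : ℝ) {ε : ℝ} (hε : 0 < ε) : ∃ N₀ : ℕ, ∀ (N : ℕ) [Fact N.Prime], N₀ ≤ N →
    ((gaussianReal 0 1).real (Set.Ici V) - ε) *
      ({f : S2 N | IsNew f ∧ co f N = 1}.ncard : ℝ) ≤
    ({f : S2 N | (IsNew f ∧ co f N = 1) ∧
      V * Real.sqrt (Real.log (Real.log N)) ≤ Pf f}.ncard : ℝ) := by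
  obtain ⟨κ, hκ, hG⟩ := TOG_gauss (-V) (half_pos hε)
  set e : ℝ := min (ε / 102) (min 1 κ / (|-V| + 3)) with he_def
  have hV3 : 0 < |-V| + 3 := by positivity
  have he : 0 < e := lt_min (by positivity) (div_pos (lt_min one_pos hκ) hV3)
  have he1 : e ≤ ε / 102 := min_le_left _ _
  have he2 : e * (|-V| + 3) ≤ min 1 κ := by
    have : e ≤ min 1 κ / (|-V| + 3) := min_le_right _ _
    calc e * (|-V| + 3) ≤ min 1 κ / (|-V| + 3) * (|-V| + 3) := by gcongr
      _ = min 1 κ := by field_simp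
  have he3 : e * (|-V| + 3) ≤ 1 := he2.trans (min_le_left _ _)
  have he4 : e * (|-V| + 3) ≤ κ := he2.trans (min_le_right _ _)
  set v : ℝ := -V - e * (|-V| + 3) with hv_def
  have hGv := hG v (by rw [hv_def]; linarith)
  obtain ⟨δ, hδ0, hδ1, N₂, h2⟩ := tail_small he
  obtain ⟨N₃, h3⟩ := nat_tail_neg even_low v hδ0 hδ1 he
  obtain ⟨N₄, h4⟩ := even_low (1 / 600) (by norm_num)
  refine ⟨max N₂ (max N₃ N₄), fun N hN hNN => ?_⟩
  have k2 := h2 N (by omega)
  have k3 := h3 N (by omega)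
  have k4 := h4 N (by omega)
  obtain ⟨C, _, hfin⟩ := new_fin
  have hF : {f : S2 N | IsNew f}.Finite := (hfin N).1
  set H : ℝ := ({f : S2 N | IsNew f ∧ co f N = 1}.ncard : ℝ) with hH
  set T : ℝ := Real.sqrt (Real.log (Real.log N)) with hT
  have hT0 : 0 ≤ T := Real.sqrt_nonneg _
  set B : Set (S2 N) := {f : S2 N | IsNew f ∧ e * T ≤
        |Pf f - ∑ p ∈ JN δ N, la f p / Real.sqrt p|} with hB
  set D : Set (S2 N) := {f : S2 N | (IsNew f ∧ co f N = 1) ∧
      v * Real.sqrt (∑ p ∈ JN δ N, 1 / (p : ℝ)) ≤ -∑ p ∈ JN δ N, la f p / Real.sqrt p} with hD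
  set E : Set (S2 N) := {f : S2 N | (IsNew f ∧ co f N = 1) ∧ V * T ≤ Pf f} with hE
  have hBf : B.Finite := hF.subset (fun f hf => hf.1)
  have hDf : D.Finite := hF.subset (fun f hf => hf.1.1)
  have hEf : E.Finite := hF.subset (fun f hf => hf.1.1)
  have hvabs : |v| ≤ |-V| + 1 := by
    have h5 : 0 ≤ e * (|-V| + 3) := by positivity
    calc |v| ≤ |-V| + |e * (|-V| + 3)| := abs_sub _ _
      _ ≤ |-V| + 1 := by rw [abs_of_nonneg h5]; linarith
  have hsub : {f : S2 N | IsNew f ∧ co f N = 1} ⊆ (E ∪ B) ∪ D := by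
    rintro f ⟨hf1, hf2⟩
    by_cases hfE : f ∈ E
    · exact Or.inl (Or.inl hfE)
    by_cases hfB : f ∈ B
    · exact Or.inl (Or.inr hfB)
    right
    have c1 : Pf f < V * T := by
      by_contra hc
      push Not at hc
      exact hfE ⟨⟨hf1, hf2⟩, hc⟩
    have c2 : |Pf f - ∑ p ∈ JN δ N, la f p / Real.sqrt p| < e * T := by
      by_contra hc
      push Not at hc
      exact hfB ⟨hf1, hc⟩
    have c4 := (abs_lt.mp c2).1
    refine ⟨⟨hf1, hf2⟩, ?_⟩
    have c5 : (-V - 2 * e) * T ≤ -∑ p ∈ JN δ N, la f p / Real.sqrt p := by nlinarith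
    refine le_trans ?_ c5
    set s : ℝ := Real.sqrt (∑ p ∈ JN δ N, 1 / (p : ℝ)) with hs
    have c7 : v * s = v * T + v * (s - T) := by ring
    have c8 : v * (s - T) ≤ (|-V| + 1) * (e * T) := by
      calc v * (s - T) ≤ |v * (s - T)| := le_abs_self _
        _ = |v| * |s - T| := abs_mul _ _
        _ ≤ (|-V| + 1) * (e * T) := by
          apply mul_le_mul hvabs k2.2 (abs_nonneg _) (by positivity)
    rw [c7]
    have c9 : v * T + (|-V| + 1) * (e * T) = (-V - 2 * e) * T := by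
      rw [hv_def]
      ring
    linarith
  have hcard : H ≤ (E.ncard : ℝ) + B.ncard + D.ncard := by
    have u1 : {f : S2 N | IsNew f ∧ co f N = 1}.ncard ≤ ((E ∪ B) ∪ D).ncard :=
      Set.ncard_le_ncard hsub ((hEf.union hBf).union hDf)
    have u2 : ((E ∪ B) ∪ D).ncard ≤ (E ∪ B).ncard + D.ncard := Set.ncard_union_le _ _
    have u3 : (E ∪ B).ncard ≤ E.ncard + B.ncard := Set.ncard_union_le _ _
    rw [hH]
    exact_mod_cast (u1.trans (u2.trans (Nat.add_le_add_right u3 _)))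
  have hNH : (N : ℝ) ≤ 25 * H := by
    have : (1 / 24 - 1 / 600) * (N : ℝ) ≤ H := k4
    linarith
  have hH0 : 0 ≤ H := Nat.cast_nonneg _
  have h6 : (D.ncard : ℝ) ≤ ((gaussianReal 0 1).real (Set.Ici v) + e) * H := k3
  have h7 : (B.ncard : ℝ) ≤ e * N := k2.1
  rw [gauss_neg] at hGv
  have h8 : ((gaussianReal 0 1).real (Set.Ici v) + e) * H ≤
      (1 - (gaussianReal 0 1).real (Set.Ici V) + ε / 2 + e) * H :=
    mul_le_mul_of_nonneg_right (by linarith) hH0
  have h9 : e * (N : ℝ) ≤ e * (25 * H) := mul_le_mul_of_nonneg_left hNH he.le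
  have h10 : 26 * e * H ≤ ε / 2 * H := mul_le_mul_of_nonneg_right (by linarith) hH0
  have h11 : ((gaussianReal 0 1).real (Set.Ici V) - ε) * H =
      H - (1 - (gaussianReal 0 1).real (Set.Ici V) + ε / 2 + e) * H - e * (25 * H) -
        (ε / 2 * H - 26 * e * H) := by ring
  rw [h11]
  linarith

end Pool.Agent.TKS
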