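import Pool.Agent.Lib_helper68.LEV.NTU
import Pool.Agent.Lib_helper68.LEV.Fin2

/-! # T12: lower tails, natural weights -/

namespace Pool.Agent.TKS

open Pool.Agent.LEV
open MeasureTheory Filter Topology ProbabilityTheory
open scoped ENNReal

theorem nat_tail_neg (hdim : ∀ δ : ℝ, 0 < δ → ∃ N₀ : ℕ, ∀ (N : ℕ) [Fact N.Prime], N₀ ≤ N →
      (1 / 24 - δ) * N ≤ ({f : S2 N | IsNew f ∧ co f N = 1}.ncard : ℝ))
    {δ ε : ℝ} (v : ℝ) (h0 : 0 < δ) (h1 : δ < 1) (hε : 0 < ε) :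
    ∃ N₀ : ℕ, ∀ (N : ℕ) [Fact N.Prime], N₀ ≤ N →
      ({f : S2 N | (IsNew f ∧ co f N = 1) ∧ v * Real.sqrt (∑ p ∈ JN δ N, 1 / (p : ℝ)) ≤
        -∑ p ∈ JN δ N, la f p / Real.sqrt p}.ncard : ℝ) ≤
      ((gaussianReal 0 1).real (Set.Ici v) + ε) *
        ({f : S2 N | IsNew f ∧ co f N = 1}.ncard : ℝ) := by
  by_contra hcon
  push Not at hcon
  obtain ⟨N₁, hN₁⟩ := hdim (1 / 48) (by norm_num)
  obtain ⟨N₂, hN₂⟩ := nat_char hdim 1 h0 h1 (show (0 : ℝ) < 1 / 10 by norm_num)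
  choose Nk inst hk hbad using fun k : ℕ => hcon (max k (max N₁ N₂))
  have hk1 : ∀ k, k ≤ Nk k := fun k => (le_max_left _ _).trans (hk k)
  have hk2 : ∀ k, N₁ ≤ Nk k := fun k =>
    (le_max_left _ _).trans ((le_max_right _ _).trans (hk k))
  have hk3 : ∀ k, N₂ ≤ Nk k := fun k =>
    (le_max_right _ _).trans ((le_max_right _ _).trans (hk k))
  obtain ⟨C, hC, hfin⟩ := new_fin
  have hfin2 : ∀ k, {f : S2 (Nk k) | IsNew f ∧ co f (Nk k) = 1}.Finite := fun k =>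
    (@hfin (Nk k) (inst k)).1.subset fun f hf => hf.1
  let ι : ℕ → Type := fun k => {f : S2 (Nk k) // IsNew f ∧ co f (Nk k) = 1}
  have ift : ∀ k, Nonempty (Fintype (ι k)) := fun k => ⟨(hfin2 k).fintype⟩
  let ft : ∀ k, Fintype (ι k) := fun k => (ift k).some
  have hcard : ∀ k, (@Fintype.card (ι k) (ft k)) =
      {f : S2 (Nk k) | IsNew f ∧ co f (Nk k) = 1}.ncard := by
    intro k
    rw [← @Nat.card_eq_fintype_card _ (ft k)]
    rfl
  have hpos : ∀ k, 0 < @Fintype.card (ι k) (ft k) := by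
    intro k
    have h2 := @hN₁ (Nk k) (inst k) (hk2 k)
    rw [← hcard k] at h2
    have h3 : (0 : ℝ) < Nk k := by exact_mod_cast (inst k).out.pos
    have h4 : (0 : ℝ) < (@Fintype.card (ι k) (ft k) : ℝ) := by
      refine lt_of_lt_of_le ?_ h2
      positivity
    exact_mod_cast h4
  have hne : ∀ k, Nonempty (ι k) := fun k => (@Fintype.card_pos_iff _ (ft k)).1 (hpos k)
  let S : ∀ k, ι k → ℝ := fun k f => (-∑ p ∈ JN δ (Nk k), la f.1 p / Real.sqrt p) /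
    Real.sqrt (∑ p ∈ JN δ (Nk k), 1 / (p : ℝ))
  have hall : ∀ k, AllEven (N := Nk k) (fun i : ι k => i.1) := by
    intro k
    refine ⟨Subtype.val_injective, fun g => ⟨fun hg => ⟨⟨g, hg⟩, rfl⟩, ?_⟩⟩
    rintro ⟨i, rfl⟩
    exact i.2
  have hlaw : ∀ k, ∃ μ : Measure ℝ, IsProbabilityMeasure μ ∧
      (∀ t : ℝ, charFun μ t = (∑ i ∈ (@Finset.univ (ι k) (ft k)),
        Complex.exp (((t * S k i : ℝ) : ℂ) * Complex.I)) / (@Fintype.card (ι k) (ft k) : ℂ)) ∧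
      ∀ v : ℝ, μ.real (Set.Ici v) =
        ({i | v ≤ S k i} : Set (ι k)).ncard / (@Fintype.card (ι k) (ft k) : ℝ) := fun k =>
    @NTU_law (ι k) (ft k) (hne k) (S k)
  choose μ hμp hμc hμt using hlaw
  have hV : ∀ k, 0 < ∑ p ∈ JN δ (Nk k), 1 / (p : ℝ) := by
    intro k
    by_contra h2
    have h3 : ∑ p ∈ JN δ (Nk k), 1 / (p : ℝ) = 0 :=
      le_antisymm (not_lt.1 h2) (Finset.sum_nonneg fun p _ => by positivity)
    have h4 := @hN₂ (Nk k) (inst k) (hk3 k) (ι k) (ft k) (fun i => i.1) (hall k)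
    rw [h3] at h4
    simp only [Real.sqrt_zero, div_zero, mul_zero, Complex.ofReal_zero, zero_mul,
      Complex.exp_zero, Finset.sum_const, nsmul_eq_mul, mul_one] at h4
    have h5 : ((@Finset.univ (ι k) (ft k)).card : ℂ) / (@Fintype.card (ι k) (ft k) : ℂ) = 1 := by
      have h6 : (@Finset.univ (ι k) (ft k)).card = @Fintype.card (ι k) (ft k) := rfl
      rw [h6]
      exact div_self (by exact_mod_cast (hpos k).ne')
    rw [h5] at h4
    have h7 : ‖(1 : ℂ) - (Real.exp (-1 ^ 2 / 2) : ℂ)‖ = 1 - Real.exp (-1 / 2) := by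
      rw [← Complex.ofReal_one, ← Complex.ofReal_sub, Complex.norm_real, Real.norm_eq_abs,
        abs_of_nonneg]
      · norm_num
      · have := Real.exp_le_one_iff.2 (show (-1 : ℝ) ^ 2 / 2 * (-1) ≤ 0 by norm_num)
        have h8 : Real.exp (-1 ^ 2 / 2) ≤ 1 := Real.exp_le_one_iff.2 (by norm_num)
        linarith
    rw [h7] at h4
    have h9 : Real.exp (-1 / 2) * (1 + 1 / 2) ≤ 1 := by
      have h10 := Real.add_one_le_exp (1 / 2 : ℝ)
      have h11 : Real.exp (-1 / 2) * Real.exp (1 / 2) = 1 := by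
        rw [← Real.exp_add]
        norm_num
      calc Real.exp (-1 / 2) * (1 + 1 / 2) ≤ Real.exp (-1 / 2) * Real.exp (1 / 2) :=
            mul_le_mul_of_nonneg_left (by linarith) (Real.exp_pos _).le
        _ = 1 := h11
    linarith
  have hlim : ∀ t : ℝ, Tendsto (fun k => charFun (μ k) t) atTop
      (𝓝 (Real.exp (-t ^ 2 / 2) : ℂ)) := by
    intro t
    rw [Metric.tendsto_atTop]
    intro e he
    obtain ⟨N₃, hN₃⟩ := nat_char hdim (-t) h0 h1 (half_pos he)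
    refine ⟨N₃, fun k hk4 => ?_⟩
    have h4 := @hN₃ (Nk k) (inst k) (hk4.trans (hk1 k)) (ι k) (ft k) (fun i => i.1) (hall k)
    rw [dist_eq_norm, hμc k t]
    refine lt_of_le_of_lt (le_of_eq ?_) (lt_of_le_of_lt h4 (half_lt_self he))
    rw [neg_sq]
    congr 3
    refine Finset.sum_congr rfl fun i _ => ?_
    congr 2
    simp only [S]
    push_cast
    ring
  have hfinal := @char_tail μ hμp hlim v ε hε
  obtain ⟨K, hK⟩ := hfinal.exists
  have h2 := hbad K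
  rw [hμt K v, div_le_iff₀ (by exact_mod_cast hpos K)] at hK
  rw [← hcard K] at h2
  refine absurd hK (not_le.2 (lt_of_lt_of_eq h2 ?_))
  congr 1
  have h3 : {f : S2 (Nk K) | (IsNew f ∧ co f (Nk K) = 1) ∧
      v * Real.sqrt (∑ p ∈ JN δ (Nk K), 1 / (p : ℝ)) ≤
        -∑ p ∈ JN δ (Nk K), la f p / Real.sqrt p} =
      Subtype.val '' ({i | v ≤ S K i} : Set (ι K)) := by
    ext f
    constructor
    · rintro ⟨hf1, hf2⟩
      refine ⟨⟨f, hf1⟩, ?_, rfl⟩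
      show v ≤ (-∑ p ∈ JN δ (Nk K), la f p / Real.sqrt p) /
        Real.sqrt (∑ p ∈ JN δ (Nk K), 1 / (p : ℝ))
      rw [le_div_iff₀ (Real.sqrt_pos.2 (hV K))]
      exact hf2
    · rintro ⟨i, hi, rfl⟩
      refine ⟨i.2, ?_⟩
      have hi' : v ≤ (-∑ p ∈ JN δ (Nk K), la i.1 p / Real.sqrt p) /
        Real.sqrt (∑ p ∈ JN δ (Nk K), 1 / (p : ℝ)) := hi
      rwa [le_div_iff₀ (Real.sqrt_pos.2 (hV K))] at hi'
  rw [h3, Set.ncard_image_of_injective _ Subtype.val_injective]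

end Pool.Agent.TKS
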