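import Pool.Agent.Lib_helper68.TKS.KSA
import Pool.Agent.Lib_helper82.T12.Law

/-! # T12: the input `KM`, from the lower half of the Keating-Snaith law -/

set_option autoImplicit false

namespace Pool.Agent.TKS

open Pool.Agent.LEV
open Pool.Agent.LX (Ex)
open Pool.Agent.T12 (XZ KM)
open MeasureTheory Filter Topology ProbabilityTheory

theorem ex_of {κ : ℝ} {N : ℕ} {q : ℕ} [NeZero q] {χ : DirichletCharacter ℂ q} {β : ℝ}
    (h : XZ κ N χ β) : Ex κ N χ β :=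
  ⟨h.rz.pq, h.hq, h.hβ, h.rz.lt, h.rz.zero⟩

theorem km_of
    (hlow : ∀ ε : ℝ, 0 < ε → ∃ κ : ℝ, 0 < κ ∧ ∀ V : ℝ, ∃ N₀ : ℕ, ∀ (N : ℕ) [Fact N.Prime],
      N₀ ≤ N → ∀ (q : ℕ) [NeZero q] (χ : DirichletCharacter ℂ q) (β : ℝ), Ex κ N χ β →
      χ (-(N : ZMod q)) = -1 →
      ((gaussianReal 0 1).real (Set.Ici V) - ε) *
        ({f : S2 N | IsNew f ∧ co f N = 1}.ncard : ℝ) ≤
      ({f : S2 N | (IsNew f ∧ co f N = 1) ∧
        Real.exp (-Real.log (Real.log N) / 2 + V * Real.sqrt (Real.log (Real.log N))) ≤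
          ‖Lh f‖}.ncard : ℝ)) : KM := by
  intro ε hε
  obtain ⟨κ, hκ, h⟩ := hlow (ε / 2) (by positivity)
  refine ⟨κ, hκ, fun V => ?_⟩
  obtain ⟨N₁, h1⟩ := h V
  obtain ⟨N₂, h2⟩ := even_low (ε / 48) (by positivity)
  refine ⟨N₁ + N₂, fun N hN hNN q _ χ β hx hs => ?_⟩
  have k1 := h1 N (by omega) q χ β (ex_of hx) hs
  have k2 := h2 N (by omega)
  have hN0 : (0 : ℝ) ≤ N := Nat.cast_nonneg _
  have hg1 : (gaussianReal 0 1).real (Set.Ici V) ≤ 1 := measureReal_le_one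
  set G := (gaussianReal 0 1).real (Set.Ici V) with hG
  by_cases h3 : G - ε ≤ 0
  · have h4 : (N : ℝ) / 24 * (G - ε) ≤ 0 :=
      mul_nonpos_of_nonneg_of_nonpos (by positivity) h3
    exact h4.trans (Nat.cast_nonneg _)
  · push Not at h3
    refine le_trans ?_ k1
    have h5 : (G - ε / 2) * ((1 / 24 - ε / 48) * N) ≤
        (G - ε / 2) * ({f : S2 N | IsNew f ∧ co f N = 1}.ncard : ℝ) :=
      mul_le_mul_of_nonneg_left k2 (by linarith)
    refine le_trans ?_ h5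
    have h6 : 1 / 24 * (G - ε) ≤ (G - ε / 2) * (1 / 24 - ε / 48) := by
      nlinarith only [hε, h3, hg1]
    calc (N : ℝ) / 24 * (G - ε) = (1 / 24 * (G - ε)) * N := by ring
      _ ≤ ((G - ε / 2) * (1 / 24 - ε / 48)) * N := mul_le_mul_of_nonneg_right h6 hN0
      _ = (G - ε / 2) * ((1 / 24 - ε / 48) * N) := by ring

end Pool.Agent.TKS
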