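import Pool.Agent.Lib_helper68.TKS.KM
import Pool.Agent.Lib_helper14.TU.NA
import Pool.Agent.Lib_helper15.TEM.ShD

/-! # T12: the input `KM`, from the sharp form of part IV and from part III -/

set_option autoImplicit false

namespace Pool.Agent.TKS

open Pool.Agent.LEV
open Pool.Agent.LX (Ex dl)
open Pool.Agent.LK (PQ)
open Pool.Agent.T12 (KM)
open MeasureTheory Filter Topology ProbabilityTheory

/-- the sum over the primes in part IV -/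
theorem px_eq {q : ℕ} [NeZero q] (χ : DirichletCharacter ℂ q) {N : ℕ} (f : S2 N) :
    TEM.PX χ (IN N) (la f) = Pf f + TU.PX χ f := by
  unfold TEM.PX TU.PX Pf
  rw [← Finset.sum_add_distrib]
  refine Finset.sum_congr rfl fun p hp => ?_
  have hp1 : p.Prime := by
    unfold IN at hp
    exact (Finset.mem_filter.1 hp).2.1
  have hp0 : (0 : ℝ) < p := by exact_mod_cast hp1.pos
  have h1 : (co f p).re / p = la f p / Real.sqrt p := by
    unfold la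
    rw [div_div, Real.mul_self_sqrt hp0.le]
  rw [h1]
  unfold TEM.lx LM.cv
  ring

theorem km_sharp
    (four_sharp : ∀ ε : ℝ, 0 < ε → ∃ κ : ℝ, 0 < κ ∧ ∀ δ : ℝ, 0 < δ → ∃ N₀ : ℕ, ∀ (N : ℕ)
      [Fact N.Prime], N₀ ≤ N → ∀ (q : ℕ) [NeZero q] (χ : DirichletCharacter ℂ q) (β : ℝ),
      Ex κ N χ β → χ (-(N : ZMod q)) = -1 →
      (1 - ε) * ((N : ℝ) / 24) ≤ ({f : S2 N | (IsNew f ∧ co f N = 1) ∧
        Real.exp (TEM.PX χ (IN N) (la f) - δ * Real.sqrt (Real.log (Real.log N))) ≤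
          ‖Lh f‖ * |TEM.U χ 1 N (la f)|}.ncard : ℝ))
    (ub_nat : ∀ ε : ℝ, 0 < ε → ∃ N₀ : ℕ, ∀ (N : ℕ) [Fact N.Prime], N₀ ≤ N →
      ∀ (q : ℕ) [NeZero q] (χ : DirichletCharacter ℂ q), PQ χ → (q : ℝ) ≤ (N : ℝ) ^ dl →
      TU.Sgn χ N 1 →
      ({f : S2 N | (IsNew f ∧ co f N = 1) ∧ TU.Bad χ 1 ε f}.ncard : ℝ) ≤ ε * N) : KM := by
  apply km_of
  refine ks_low (fun {q} _ χ N f => TU.PX χ f) (fun {q} _ χ N f => TEM.U χ 1 N (la f)) ?_ ?_ ?_
  · intro ε hε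
    obtain ⟨κ, hκ, h⟩ := four_sharp ε hε
    refine ⟨κ, hκ, fun δ hδ => ?_⟩
    obtain ⟨N₀, h⟩ := h δ hδ
    refine ⟨N₀, fun N _ hN q _ χ β hE hs => ?_⟩
    have h1 := h N hN q χ β hE hs
    simp only [px_eq] at h1
    exact h1
  · intro ε hε
    obtain ⟨N₀, h⟩ := ub_nat ε hε
    refine ⟨N₀, fun N _ hN q _ χ hχ hq hs => ?_⟩
    have h1 := h N hN q χ hχ hq (Or.inr ⟨hs, rfl⟩)
    refine le_trans ?_ h1
    obtain ⟨C, _, hfin⟩ := new_fin
    have hF : {f : S2 N | IsNew f}.Finite := (hfin N).1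
    norm_cast
    apply Set.ncard_le_ncard _ (hF.subset (fun f hf => hf.1.1))
    rintro f ⟨hf1, hf2⟩
    refine ⟨hf1, Or.inl ?_⟩
    have h2 : ((1 : ℕ) : ℝ) - 1 / 2 = 1 / 2 := by norm_num
    rw [h2]
    exact hf2
  · unfold dl
    norm_num

theorem km : KM := km_sharp TEM.four_sharp fun _ hε => TU.ub_nat 1 hε

end Pool.Agent.TKS
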