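import Pool.Agent.Lib_helper68.TKS.LT
import Pool.Agent.Lib_helper68.LSP2.GLW
import Pool.Agent.Lib_helper71.LSP3.AS5

/-! # T12: the Keating-Snaith law at the levels with `χ(-N) = -1`, from the two bounds -/

set_option autoImplicit false

namespace Pool.Agent.TKS

open Pool.Agent.LEV
open Pool.Agent.LX (Ex dl)
open Pool.Agent.LK (PQ)
open MeasureTheory Filter Topology ProbabilityTheory

/-- the lower half in terms of the norm of the central value -/
theorem ks_low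
    (X u : ∀ {q : ℕ} [NeZero q], DirichletCharacter ℂ q → ∀ N : ℕ, S2 N → ℝ)
    (ha : ∀ ε : ℝ, 0 < ε → ∃ κ : ℝ, 0 < κ ∧ ∀ δ : ℝ, 0 < δ → ∃ N₀ : ℕ, ∀ (N : ℕ)
      [Fact N.Prime], N₀ ≤ N → ∀ (q : ℕ) [NeZero q] (χ : DirichletCharacter ℂ q) (β : ℝ),
      Ex κ N χ β → χ (-(N : ZMod q)) = -1 →
      (1 - ε) * ((N : ℝ) / 24) ≤ ({f : S2 N | (IsNew f ∧ co f N = 1) ∧
        Real.exp (Pf f + X χ N f - δ * Real.sqrt (Real.log (Real.log N))) ≤
          ‖Lh f‖ * |u χ N f|}.ncard : ℝ))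
    (hb : ∀ ε : ℝ, 0 < ε → ∃ N₀ : ℕ, ∀ (N : ℕ) [Fact N.Prime], N₀ ≤ N →
      ∀ (q : ℕ) [NeZero q] (χ : DirichletCharacter ℂ q), PQ χ → (q : ℝ) ≤ (N : ℝ) ^ dl →
      χ (-(N : ZMod q)) = -1 →
      ({f : S2 N | (IsNew f ∧ co f N = 1) ∧
        Real.log N ^ (1 / 2 : ℝ) * Real.exp (X χ N f + ε * Real.sqrt (Real.log (Real.log N))) <
          |u χ N f|}.ncard : ℝ) ≤ ε * N)
    (hdl : 0 < dl) :
    ∀ ε : ℝ, 0 < ε → ∃ κ : ℝ, 0 < κ ∧ ∀ V : ℝ, ∃ N₀ : ℕ, ∀ (N : ℕ) [Fact N.Prime], N₀ ≤ N →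
      ∀ (q : ℕ) [NeZero q] (χ : DirichletCharacter ℂ q) (β : ℝ), Ex κ N χ β →
      χ (-(N : ZMod q)) = -1 →
      ((gaussianReal 0 1).real (Set.Ici V) - ε) *
        ({f : S2 N | IsNew f ∧ co f N = 1}.ncard : ℝ) ≤
      ({f : S2 N | (IsNew f ∧ co f N = 1) ∧
        Real.exp (-Real.log (Real.log N) / 2 + V * Real.sqrt (Real.log (Real.log N))) ≤
          ‖Lh f‖}.ncard : ℝ) := by
  intro ε hε
  obtain ⟨κ₁, hκ₁, ha⟩ := ha (ε / 10) (by positivity)
  refine ⟨min κ₁ dl, lt_min hκ₁ hdl, fun V => ?_⟩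
  obtain ⟨e, he, hG⟩ := TOG_gauss (-V) (show (0 : ℝ) < ε / 4 by positivity)
  obtain ⟨N₁, h1⟩ := ha (e / 2) (by positivity)
  set b : ℝ := min (ε / 200) (e / 2) with hb_def
  have hb0 : 0 < b := lt_min (by positivity) (by positivity)
  have hb1 : b ≤ ε / 200 := min_le_left _ _
  have hb2 : b ≤ e / 2 := min_le_right _ _
  obtain ⟨N₂, h2⟩ := hb b hb0
  obtain ⟨N₃, h3⟩ := low_tail (V + e) (show (0 : ℝ) < ε / 4 by positivity)
  obtain ⟨N₄, h4⟩ := even_low (1 / 600) (by norm_num)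
  obtain ⟨N₅, h5⟩ := even_up (show (0 : ℝ) < ε / 200 by positivity)
  refine ⟨N₁ + N₂ + N₃ + N₄ + N₅ + 3, fun N hN hNN q _ χ β hE hχ => ?_⟩
  have hN3 : 3 ≤ N := by omega
  have hN3' : (3 : ℝ) ≤ N := by exact_mod_cast hN3
  have hlog : 0 < Real.log N := Real.log_pos (by linarith)
  have k1 := h1 N (by omega) q χ β (hE.mono (min_le_left _ _) hN3) hχ
  have k2 := h2 N (by omega) q χ hE.pq
    (hE.q_le.trans (Real.rpow_le_rpow_of_exponent_le (by linarith) (min_le_right _ _))) hχ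
  have k3 := h3 N (by omega)
  have k4 := h4 N (by omega)
  have k5 := h5 N (by omega)
  rw [HE_eq] at k5
  obtain ⟨C, _, hfin⟩ := new_fin
  have hF : {f : S2 N | IsNew f}.Finite := (hfin N).1
  set H : Set (S2 N) := {f : S2 N | IsNew f ∧ co f N = 1} with hH
  set T : ℝ := Real.sqrt (Real.log (Real.log N)) with hT
  have hT0 : 0 ≤ T := Real.sqrt_nonneg _
  set A : Set (S2 N) := {f : S2 N | (IsNew f ∧ co f N = 1) ∧
        Real.exp (Pf f + X χ N f - e / 2 * T) ≤ ‖Lh f‖ * |u χ N f|} with hA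
  set B : Set (S2 N) := {f : S2 N | (IsNew f ∧ co f N = 1) ∧
        Real.log N ^ (1 / 2 : ℝ) * Real.exp (X χ N f + b * T) < |u χ N f|} with hB
  set D : Set (S2 N) := {f : S2 N | (IsNew f ∧ co f N = 1) ∧ (V + e) * T ≤ Pf f} with hD
  set G : Set (S2 N) := {f : S2 N | (IsNew f ∧ co f N = 1) ∧
        Real.exp (-Real.log (Real.log N) / 2 + V * T) ≤ ‖Lh f‖} with hG'
  have hHf : H.Finite := hF.subset (fun f hf => hf.1)
  have hAf : A.Finite := hF.subset (fun f hf => hf.1.1)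
  have hBf : B.Finite := hF.subset (fun f hf => hf.1.1)
  have hDf : D.Finite := hF.subset (fun f hf => hf.1.1)
  have hGf : G.Finite := hF.subset (fun f hf => hf.1.1)
  have hAH : A ⊆ H := fun f hf => hf.1
  have hsub : D ⊆ (G ∪ B) ∪ (H \ A) := by
    rintro f ⟨hf1, hf2⟩
    by_cases hfA : f ∈ A
    · left
      by_cases hfB : f ∈ B
      · exact Or.inr hfB
      left
      refine ⟨hf1, ?_⟩
      have c1 : |u χ N f| ≤ Real.log N ^ (1 / 2 : ℝ) * Real.exp (X χ N f + b * T) := by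
        by_contra hc
        push Not at hc
        exact hfB ⟨hf1, hc⟩
      have c2 := hfA.2
      have c3 : Real.exp (Pf f + X χ N f - e / 2 * T) ≤
          ‖Lh f‖ * (Real.log N ^ (1 / 2 : ℝ) * Real.exp (X χ N f + b * T)) :=
        c2.trans (mul_le_mul_of_nonneg_left c1 (norm_nonneg _))
      have c4 : Real.log N ^ (1 / 2 : ℝ) = Real.exp (Real.log (Real.log N) / 2) := by
        rw [Real.rpow_def_of_pos hlog]
        congr 1
        ring
      rw [c4, ← Real.exp_add] at c3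
      have c5 : Real.exp (Pf f + X χ N f - e / 2 * T) *
          Real.exp (-(Real.log (Real.log N) / 2 + (X χ N f + b * T))) ≤ ‖Lh f‖ := by
        have c6 := mul_le_mul_of_nonneg_right c3
          (Real.exp_pos (-(Real.log (Real.log N) / 2 + (X χ N f + b * T)))).le
        have c9 : Real.exp (Real.log (Real.log N) / 2 + (X χ N f + b * T)) *
            Real.exp (-(Real.log (Real.log N) / 2 + (X χ N f + b * T))) = 1 := by
          rw [← Real.exp_add, add_neg_cancel, Real.exp_zero]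
        rw [mul_assoc, c9, mul_one] at c6
        exact c6
      rw [← Real.exp_add] at c5
      refine le_trans ?_ c5
      apply Real.exp_le_exp.2
      have c7 : b * T ≤ e / 2 * T := mul_le_mul_of_nonneg_right hb2 hT0
      have c8 : (V + e) * T = V * T + e / 2 * T + e / 2 * T := by ring
      linarith
    · right
      exact ⟨hf1, hfA⟩
  have hcard : (D.ncard : ℝ) ≤ (G.ncard : ℝ) + B.ncard + (H.ncard - A.ncard) := by
    have u1 : D.ncard ≤ ((G ∪ B) ∪ (H \ A)).ncard :=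
      Set.ncard_le_ncard hsub ((hGf.union hBf).union (hHf.subset Set.sdiff_subset))
    have u2 : ((G ∪ B) ∪ (H \ A)).ncard ≤ (G ∪ B).ncard + (H \ A).ncard := Set.ncard_union_le _ _
    have u3 : (G ∪ B).ncard ≤ G.ncard + B.ncard := Set.ncard_union_le _ _
    have u4 : (H \ A).ncard + A.ncard = H.ncard := Set.ncard_sdiff_add_ncard_of_subset hAH hHf
    have u5 : (D.ncard : ℝ) ≤ (G.ncard : ℝ) + B.ncard + ((H \ A).ncard : ℝ) := by
      exact_mod_cast (u1.trans (u2.trans (Nat.add_le_add_right u3 _)))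
    have u6 : ((H \ A).ncard : ℝ) + A.ncard = H.ncard := by exact_mod_cast u4
    linarith
  have hNH : (N : ℝ) ≤ 25 * H.ncard := by
    have : (1 / 24 - 1 / 600) * (N : ℝ) ≤ H.ncard := k4
    linarith
  have hH0 : (0 : ℝ) ≤ H.ncard := Nat.cast_nonneg _
  have hN0 : (0 : ℝ) ≤ N := by linarith
  have h6 : ((gaussianReal 0 1).real (Set.Ici (V + e)) - ε / 4) * (H.ncard : ℝ) ≤ D.ncard := k3
  have h7 : (B.ncard : ℝ) ≤ b * N := k2
  have h8 : (1 - ε / 10) * ((N : ℝ) / 24) ≤ A.ncard := k1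
  have h9 : (H.ncard : ℝ) ≤ (1 / 24 + ε / 200) * N := k5
  have h10 : (gaussianReal 0 1).real (Set.Ici V) - ε / 4 ≤
      (gaussianReal 0 1).real (Set.Ici (V + e)) := by
    have h11 := hG (-(V + e)) (by linarith)
    rw [gauss_neg, gauss_neg] at h11
    linarith
  have h12 : ((gaussianReal 0 1).real (Set.Ici V) - ε / 4 - ε / 4) * (H.ncard : ℝ) ≤ D.ncard :=
    (mul_le_mul_of_nonneg_right (by linarith) hH0).trans h6
  have h13 : (H.ncard : ℝ) - A.ncard ≤ (ε / 200 + ε / 240) * N := by linarith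
  have h14 : b * (N : ℝ) ≤ ε / 200 * N := mul_le_mul_of_nonneg_right hb1 hN0
  have h15 : (ε / 200 + ε / 240 + ε / 200) * (N : ℝ) ≤
      (ε / 200 + ε / 240 + ε / 200) * (25 * H.ncard) :=
    mul_le_mul_of_nonneg_left hNH (by positivity)
  have h16 : (ε / 200 + ε / 240 + ε / 200) * (25 * (H.ncard : ℝ)) ≤ ε / 2 * H.ncard := by
    nlinarith [mul_nonneg hε.le hH0]
  have h17 : ((gaussianReal 0 1).real (Set.Ici V) - ε) * (H.ncard : ℝ) =
      ((gaussianReal 0 1).real (Set.Ici V) - ε / 4 - ε / 4) * (H.ncard : ℝ) -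
        ε / 2 * H.ncard := by ring
  rw [h17]
  linarith

/-- the law: from the lower half and `fin_clt` -/
theorem ks_two
    (hlow : ∀ ε : ℝ, 0 < ε → ∃ κ : ℝ, 0 < κ ∧ ∀ V : ℝ, ∃ N₀ : ℕ, ∀ (N : ℕ) [Fact N.Prime],
      N₀ ≤ N → ∀ (q : ℕ) [NeZero q] (χ : DirichletCharacter ℂ q) (β : ℝ), Ex κ N χ β →
      χ (-(N : ZMod q)) = -1 →
      ((gaussianReal 0 1).real (Set.Ici V) - ε) *
        ({f : S2 N | IsNew f ∧ co f N = 1}.ncard : ℝ) ≤
      ({f : S2 N | (IsNew f ∧ co f N = 1) ∧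
        Real.exp (-Real.log (Real.log N) / 2 + V * Real.sqrt (Real.log (Real.log N))) ≤
          ‖Lh f‖}.ncard : ℝ)) :
    ∀ ε : ℝ, 0 < ε → ∃ κ : ℝ, 0 < κ ∧ ∀ V : ℝ, ∃ N₀ : ℕ, ∀ (N : ℕ) [Fact N.Prime], N₀ ≤ N →
      ∀ (q : ℕ) [NeZero q] (χ : DirichletCharacter ℂ q) (β : ℝ), Ex κ N χ β →
      χ (-(N : ZMod q)) = -1 →
      |({f : S2 N | f ∈ HE N ∧
        Real.exp (-Real.log (Real.log N) / 2 + V * Real.sqrt (Real.log (Real.log N))) ≤
          (Lh f).re}.ncard : ℝ) / ((HE N).ncard : ℝ) -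
        (gaussianReal 0 1).real (Set.Ici V)| ≤ ε := by
  intro ε hε
  obtain ⟨κ, hκ, h⟩ := hlow ε hε
  refine ⟨κ, hκ, fun V => ?_⟩
  obtain ⟨N₁, h1⟩ := h V
  obtain ⟨N₂, h2⟩ := fin_clt V hε
  obtain ⟨N₃, h3⟩ := even_low (1 / 600) (by norm_num)
  refine ⟨N₁ + N₂ + N₃ + 3, fun N hN hNN q _ χ β hE hχ => ?_⟩
  have k1 := h1 N (by omega) q χ β hE hχ
  have k2 := h2 N (by omega)
  have k3 := h3 N (by omega)
  have hN3' : (3 : ℝ) ≤ N := by exact_mod_cast (by omega : 3 ≤ N)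
  have hpos : (0 : ℝ) < ((HE N).ncard : ℝ) := by
    rw [HE_eq]
    refine lt_of_lt_of_le ?_ k3
    have : (0 : ℝ) < N := by linarith
    positivity
  have hset : {f : S2 N | (IsNew f ∧ co f N = 1) ∧
        Real.exp (-Real.log (Real.log N) / 2 + V * Real.sqrt (Real.log (Real.log N))) ≤
          ‖Lh f‖} = {f : S2 N | f ∈ HE N ∧
        Real.exp (-Real.log (Real.log N) / 2 + V * Real.sqrt (Real.log (Real.log N))) ≤
          (Lh f).re} := by
    rw [HE_eq]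
    ext f
    constructor
    · rintro ⟨hf1, hf2⟩
      refine ⟨hf1, ?_⟩
      rwa [LSP.Lh_norm (by omega) hf1.1 hf1.2] at hf2
    · rintro ⟨hf1, hf2⟩
      have hf1' : IsNew f ∧ co f N = 1 := hf1
      refine ⟨hf1, ?_⟩
      rwa [LSP.Lh_norm (by omega) hf1'.1 hf1'.2]
  rw [hset, ← HE_eq] at k1
  rw [abs_le]
  constructor
  · have : (gaussianReal 0 1).real (Set.Ici V) - ε ≤ ({f : S2 N | f ∈ HE N ∧
        Real.exp (-Real.log (Real.log N) / 2 + V * Real.sqrt (Real.log (Real.log N))) ≤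
          (Lh f).re}.ncard : ℝ) / ((HE N).ncard : ℝ) := by
      rw [le_div_iff₀ hpos]
      exact k1
    linarith
  · have : ({f : S2 N | f ∈ HE N ∧
        Real.exp (-Real.log (Real.log N) / 2 + V * Real.sqrt (Real.log (Real.log N))) ≤
          (Lh f).re}.ncard : ℝ) / ((HE N).ncard : ℝ) ≤
        (gaussianReal 0 1).real (Set.Ici V) + ε := by
      rw [div_le_iff₀ hpos]
      exact k2
    linarith

end Pool.Agent.TKS
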